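import Pool.Agent.H947R2.TP.Stubs

/-! Task L6 (helper25): the contact sum in the limit. -/

set_option autoImplicit false

open MeasureTheory Filter Topology Set
open scoped ENNReal

namespace H947TP

namespace L6aux

/-- pigeonhole along an ultrafilter -/
theorem exists_of_eventually {α ι : Type*} [Finite ι] (U : Ultrafilter α) {p : ι → α → Prop}
    (h : ∀ᶠ m in U, ∃ k, p k m) : ∃ k, ∀ᶠ m in U, p k m := by
  exact Ultrafilter.eventually_exists_iff.1 h

/-- a finite sum over a set covered by an indexed family -/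
theorem finsum_le {α β : Type*} [DecidableEq α] [DecidableEq β] (P : Set α) (f : α → ℝ)
    (W : Finset β) (φ : β → α) (hP : ∀ v ∈ P, ∃ u ∈ W, v = φ u) (hf : ∀ v ∈ P, 0 ≤ f v)
    (F : β → ℝ) (hF0 : ∀ u ∈ W, 0 ≤ F u) (hF : ∀ u ∈ W, φ u ∈ P → f (φ u) ≤ F u) :
    ∑ᶠ v ∈ P, f v ≤ ∑ u ∈ W, F u := by
  classical
  have hfin : P.Finite := by
    refine (W.image φ).finite_toSet.subset ?_
    intro v hv
    obtain ⟨u, hu, rfl⟩ := hP v hv
    exact Finset.mem_coe.2 (Finset.mem_image_of_mem φ hu)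
  rcases P.eq_empty_or_nonempty with hPe | ⟨v0, hv0⟩
  · rw [hPe, finsum_mem_empty]
    exact Finset.sum_nonneg hF0
  have : Nonempty β := ⟨(hP v0 hv0).choose⟩
  choose! g hg1 hg2 using hP
  rw [finsum_mem_eq_finite_toFinset_sum f hfin]
  have hinj : Set.InjOn g (hfin.toFinset : Set α) := by
    intro x hx y hy hxy
    have hx' := hfin.mem_toFinset.1 hx
    have hy' := hfin.mem_toFinset.1 hy
    rw [hg2 x hx', hg2 y hy', hxy]
  calc ∑ v ∈ hfin.toFinset, f v ≤ ∑ v ∈ hfin.toFinset, F (g v) := by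
        refine Finset.sum_le_sum fun v hv => ?_
        have hv' := hfin.mem_toFinset.1 hv
        have h1 := hF (g v) (hg1 v hv') (by rw [← hg2 v hv']; exact hv')
        rwa [← hg2 v hv'] at h1
    _ = ∑ u ∈ hfin.toFinset.image g, F u := (Finset.sum_image hinj).symm
    _ ≤ ∑ u ∈ W, F u := by
        refine Finset.sum_le_sum_of_subset_of_nonneg ?_ (fun u hu _ => hF0 u hu)
        intro u hu
        obtain ⟨v, hv, rfl⟩ := Finset.mem_image.1 hu
        exact hg1 v (hfin.mem_toFinset.1 hv)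

theorem wgt_nonneg {D : ℕ} (k : Fin D) {u : Fin D → ℝ} (hu : ∀ i, |u i| ≤ 1) : 0 ≤ wgt k u :=
  Finset.prod_nonneg fun l _ => by linarith [hu l]

theorem wgt_cont {D : ℕ} (k : Fin D) : Continuous (fun u : Fin D → ℝ => wgt k u) := by
  unfold wgt
  exact continuous_finsetProd _ fun l _ => continuous_const.sub (continuous_apply l).abs

end L6aux

open L6aux

theorem L6 (hP1 : St_P1) (_hL2 : St_L2) (hL3 : St_L3) (hB3 : St_B3) : St_L6 := by
  classical
  intro D n b δ η ε Λ U hδ hδ1 hD hn hη hε hεt hsep htile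
  have hPhi : ∀ k : Fin D, (∀ w, 0 ≤ Phi b δ k w) ∧ (∀ w, (∀ i, |w i| ≤ 1) → Phi b δ k w ≤ 1) ∧
      Phi b δ k 0 = 0 ∧ Continuous (Phi b δ k) := by
    intro k
    obtain ⟨h1, h2, _, h4, h5, _⟩ := hP1 D n b δ k hδ hδ1 hD hn
    exact ⟨h1, h2, h4, h5⟩
  obtain ⟨_, hfin, _⟩ := hB3 D (Lim U Λ) htile
  set L := Lim U Λ with hL
  have hWfin := hfin 1
  set W : Finset (Fin D → ℝ) := hWfin.toFinset with hWdef
  have hW : ∀ u, u ∈ W ↔ u ∈ L ∧ ∀ i, |u i| ≤ 1 := by
    intro u
    rw [hWdef, Set.Finite.mem_toFinset]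
    rfl
  -- the approximating sequences
  have hex : ∀ u ∈ W, ∃ v : ℕ → (Fin D → ℝ), (∀ m, v m ∈ Λ m) ∧ Tendsto v U (𝓝 u) := by
    intro u hu
    exact ((hW u).1 hu).1
  choose! v hvΛ hvt using hex
  -- (i)
  have hi : ∀ᶠ m in U, ∀ x ∈ Λ m, (∀ l, |x l| < 1) → ∃ u ∈ W, x = v u m := by
    by_contra hcon
    have hcon' := Ultrafilter.eventually_not.2 hcon
    have hcon2 : ∀ᶠ m in U, ∃ x, x ∈ Λ m ∧ (∀ l, |x l| < 1) ∧ ∀ u ∈ W, x ≠ v u m := by
      filter_upwards [hcon'] with m hm
      push Not at hm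
      obtain ⟨x, hx1, hx2, hx3⟩ := hm
      exact ⟨x, hx1, hx2, hx3⟩
    have hch : ∃ w : ℕ → (Fin D → ℝ), ∀ᶠ m in U, w m ∈ Λ m ∧ (∀ l, |w m l| < 1) ∧
        ∀ u ∈ W, w m ≠ v u m := by
      refine ⟨fun m => if h : ∃ x, x ∈ Λ m ∧ (∀ l, |x l| < 1) ∧ ∀ u ∈ W, x ≠ v u m then
        h.choose else 0, ?_⟩
      filter_upwards [hcon2] with m hm
      rw [dif_pos hm]
      exact hm.choose_spec
    obtain ⟨w, hw⟩ := hch
    obtain ⟨x, hxL, hxt⟩ := hL3 D Λ U 1 w (by
      filter_upwards [hw] with m hm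
      exact ⟨hm.1, fun l => (hm.2.1 l).le⟩)
    have hxW : x ∈ W := by
      refine (hW x).2 ⟨hxL, fun i => ?_⟩
      have h1 : Tendsto (fun m => |w m i|) U (𝓝 |x i|) :=
        ((continuous_apply i).abs.tendsto x).comp hxt
      refine le_of_tendsto h1 ?_
      filter_upwards [hw] with m hm
      exact (hm.2.1 i).le
    have hz : Tendsto (fun m => w m - v x m) U (𝓝 0) := by
      have := hxt.sub (hvt x hxW)
      rwa [sub_self] at this
    have hN : ∀ k, ∀ᶠ m in U, Nk b δ (ε m) k (w m - v x m) < 1 := by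
      intro k
      have h1 : Tendsto (fun m => |(w m - v x m) k|) U (𝓝 |(0 : Fin D → ℝ) k|) :=
        ((continuous_apply k).abs.tendsto (0 : Fin D → ℝ)).comp hz
      have h2 : Tendsto (fun m => Phi b δ k (w m - v x m)) U (𝓝 (Phi b δ k 0)) :=
        ((hPhi k).2.2.2.tendsto 0).comp hz
      have h3 := h1.add (hεt.mul h2)
      rw [(hPhi k).2.2.1] at h3
      have h4 : |(0 : Fin D → ℝ) k| + 0 * (0 : ℝ) = 0 := by simp
      rw [h4] at h3
      exact h3.eventually (gt_mem_nhds one_pos)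
    have hN' : ∀ᶠ m in U, ∀ k, Nk b δ (ε m) k (w m - v x m) < 1 := eventually_all.2 hN
    obtain ⟨m, hm1, hm2⟩ := (hw.and hN').exists
    obtain ⟨k, hk⟩ := hsep m (w m - v x m) ((Λ m).sub_mem hm1.1 (hvΛ x hxW m))
      (sub_ne_zero.2 (hm1.2.2 x hxW))
    exact absurd hk (not_le.2 (hm2 k))
  -- the weights
  set T : (Fin D → ℝ) → ℝ := fun u => ∑ k, if u ∈ AA L k then wgt k u * Phi b δ k u else 0
    with hTdef
  have hT0 : ∀ u ∈ W, 0 ≤ T u := by
    intro u hu
    refine Finset.sum_nonneg fun k _ => ?_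
    split_ifs
    · exact mul_nonneg (wgt_nonneg k ((hW u).1 hu).2) ((hPhi k).1 u)
    · exact le_rfl
  have hSS : SS b δ L = ∑ u ∈ W, T u := by
    rw [SS, hTdef, Finset.sum_comm]
    refine Finset.sum_congr rfl fun k _ => ?_
    have hsub : AA L k ⊆ (W : Set (Fin D → ℝ)) := by
      rintro u ⟨h1, h2, h3⟩
      refine Finset.mem_coe.2 ((hW u).2 ⟨h1, fun i => ?_⟩)
      by_cases hik : i = k
      · rw [hik, h2, abs_one]
      · exact (h3 i hik).le
    have hAfin : (AA L k).Finite := W.finite_toSet.subset hsub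
    rw [Ex, finsum_mem_eq_finite_toFinset_sum _ hAfin, ← Finset.sum_filter]
    refine Finset.sum_congr ?_ fun _ _ => rfl
    ext u
    rw [Set.Finite.mem_toFinset, Finset.mem_filter]
    exact ⟨fun h => ⟨Finset.mem_coe.1 (hsub h), h⟩, fun h => h.2⟩
  set η' : ℝ := η / (W.card + 1) with hη'
  have hcard : (0 : ℝ) < W.card + 1 := by positivity
  have hη'0 : 0 < η' := div_pos hη hcard
  set P : ℕ → Set (Fin D → ℝ) := fun m =>
    {v | v ∈ Λ m ∧ (∀ l, |v l| < 1) ∧ ∃ k, 0 < v k ∧ 1 ≤ Nk b δ (ε m) k v} with hP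
  -- the claim for one `u`
  have hclaim : ∀ u ∈ W, ∀ᶠ m in U, v u m ∈ P m →
      ∏ l, (1 - |v u m l|) ≤ ε m * (T u + η') := by
    intro u hu
    rcases U.em (fun m => v u m ∈ P m) with hin | hout
    · have hin2 : ∀ᶠ m in U, ∃ k, 0 < v u m k ∧ 1 ≤ Nk b δ (ε m) k (v u m) := by
        filter_upwards [hin] with m hm
        exact hm.2.2
      obtain ⟨k, hk⟩ := exists_of_eventually U hin2
      obtain ⟨huL, hu1⟩ := (hW u).1 hu
      have hvk : Tendsto (fun m => v u m k) U (𝓝 (u k)) :=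
        ((continuous_apply k).tendsto u).comp (hvt u hu)
      have hPk : Tendsto (fun m => Phi b δ k (v u m)) U (𝓝 (Phi b δ k u)) :=
        ((hPhi k).2.2.2.tendsto u).comp (hvt u hu)
      have huk : u k = 1 := by
        refine le_antisymm ((le_abs_self _).trans (hu1 k)) ?_
        have h3 := hvk.add (hεt.mul hPk)
        rw [zero_mul, add_zero] at h3
        refine ge_of_tendsto h3 ?_
        filter_upwards [hk] with m hm
        have h4 := hm.2
        rw [Nk, abs_of_pos hm.1] at h4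
        exact h4
      have hwk : Tendsto (fun m => Phi b δ k (v u m) * wgt k (v u m)) U
          (𝓝 (Phi b δ k u * wgt k u)) :=
        hPk.mul (((wgt_cont k).tendsto u).comp (hvt u hu))
      have hc : Phi b δ k u * wgt k u ≤ T u := by
        by_cases huA : u ∈ AA L k
        · have h1 : (if u ∈ AA L k then wgt k u * Phi b δ k u else 0) ≤ T u := by
            refine Finset.single_le_sum (f := fun k => if u ∈ AA L k then
              wgt k u * Phi b δ k u else 0) (fun j _ => ?_) (Finset.mem_univ k)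
            show (0 : ℝ) ≤ if u ∈ AA L j then wgt j u * Phi b δ j u else 0
            split_ifs
            · exact mul_nonneg (wgt_nonneg j hu1) ((hPhi j).1 u)
            · exact le_rfl
          rw [if_pos huA, mul_comm] at h1
          exact h1
        · have h1 : wgt k u = 0 := by
            have h2 : ∃ l, l ≠ k ∧ ¬ |u l| < 1 := by
              by_contra h3
              push Not at h3
              exact huA ⟨huL, huk, h3⟩
            obtain ⟨l, hlk, hl⟩ := h2
            refine Finset.prod_eq_zero (i := l) (Finset.mem_erase.2 ⟨hlk, Finset.mem_univ l⟩) ?_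
            have h3 := hu1 l
            have h4 := not_lt.1 hl
            linarith
          rw [h1, mul_zero]
          exact hT0 u hu
      have hev : ∀ᶠ m in U, Phi b δ k (v u m) * wgt k (v u m) < T u + η' :=
        hwk.eventually (gt_mem_nhds (by linarith))
      filter_upwards [hev, hk, hin] with m hm1 hm2 hm3 _
      have h1 : ∏ l, (1 - |v u m l|) = (1 - |v u m k|) * wgt k (v u m) := by
        rw [wgt, Finset.mul_prod_erase Finset.univ (fun l => 1 - |v u m l|) (Finset.mem_univ k)]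
      have h2 : 0 ≤ wgt k (v u m) := wgt_nonneg k fun i => (hm3.2.1 i).le
      have h3 : 1 - |v u m k| ≤ ε m * Phi b δ k (v u m) := by
        have h4 := hm2.2
        rw [Nk] at h4
        linarith
      calc ∏ l, (1 - |v u m l|) = (1 - |v u m k|) * wgt k (v u m) := h1
        _ ≤ (ε m * Phi b δ k (v u m)) * wgt k (v u m) := mul_le_mul_of_nonneg_right h3 h2
        _ = ε m * (Phi b δ k (v u m) * wgt k (v u m)) := by ring
        _ ≤ ε m * (T u + η') := mul_le_mul_of_nonneg_left hm1.le (hε m).le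
    · filter_upwards [hout] with m hm hm'
      exact absurd hm' hm
  have hclaim' : ∀ᶠ m in U, ∀ u ∈ W, v u m ∈ P m →
      ∏ l, (1 - |v u m l|) ≤ ε m * (T u + η') :=
    (eventually_all_finset W).2 hclaim
  filter_upwards [hi, hclaim'] with m hm1 hm2
  have hmain : ∑ᶠ x ∈ P m, ∏ l, (1 - |x l|) ≤ ∑ u ∈ W, ε m * (T u + η') := by
    refine finsum_le (P m) (fun x => ∏ l, (1 - |x l|)) W (fun u => v u m)
      (fun x hx => hm1 x hx.1 hx.2.1) ?_ _ ?_ ?_
    · intro x hx
      exact Finset.prod_nonneg fun l _ => by linarith [hx.2.1 l]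
    · intro u hu
      exact mul_nonneg (hε m).le (by linarith [hT0 u hu])
    · intro u hu hux
      exact hm2 u hu hux
  refine hmain.trans ?_
  rw [← Finset.mul_sum, Finset.sum_add_distrib, ← hSS, Finset.sum_const, nsmul_eq_mul]
  refine mul_le_mul_of_nonneg_left ?_ (hε m).le
  have h5 : (W.card : ℝ) * η' ≤ η := by
    rw [hη', mul_div_assoc', div_le_iff₀ hcard]
    nlinarith
  linarith

end H947TP
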